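import Pool.Agent.Helper13.ZL.Stmts

/-!
# VEMB: every finite place of a number field is induced by an embedding into `ℂ_p`
-/

set_option autoImplicit false

namespace Pool.Agent.Helper13.ZL

open Pool.Agent.Helper14.BSC NumberField IsDedekindDomain
open scoped Pointwise

/-- integral elements have norm at most one -/
theorem vemb_norm_le_one {p : ℕ} [Fact p.Prime] {y : ℂ_[p]} (f : Polynomial ℤ) (hf : f.Monic)
    (hfy : Polynomial.eval₂ (Int.castRingHom ℂ_[p]) y f = 0) : ‖y‖ ≤ 1 := by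
  by_contra hlt
  rw [not_le] at hlt
  have h1 : y ^ f.natDegree = -∑ i ∈ Finset.range f.natDegree, (f.coeff i : ℂ_[p]) * y ^ i := by
    rw [Polynomial.eval₂_eq_sum_range, Finset.sum_range_succ, hf.coeff_natDegree, map_one,
      one_mul] at hfy
    rw [eq_neg_iff_add_eq_zero, add_comm, ← hfy]
    rfl
  rcases Nat.eq_zero_or_pos f.natDegree with h0 | h0
  · rw [h0] at h1
    simp at h1
  have h2 : ‖y ^ f.natDegree‖ ≤ ‖y‖ ^ (f.natDegree - 1) := by
    rw [h1, norm_neg]
    apply IsUltrametricDist.norm_sum_le_of_forall_le_of_nonneg (by positivity)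
    intro i hi
    rw [norm_mul, norm_pow]
    have h3 : ‖((f.coeff i : ℤ) : ℂ_[p])‖ ≤ 1 := by
      have : ((f.coeff i : ℤ) : ℂ_[p]) = algebraMap ℚ_[p] ℂ_[p] ((f.coeff i : ℤ) : ℚ_[p]) := by simp
      rw [this, norm_algebraMap']
      exact Padic.norm_int_le_one _
    have h4 : ‖y‖ ^ i ≤ ‖y‖ ^ (f.natDegree - 1) :=
      pow_le_pow_right₀ hlt.le (by have := Finset.mem_range.1 hi; omega)
    calc ‖((f.coeff i : ℤ) : ℂ_[p])‖ * ‖y‖ ^ i ≤ 1 * ‖y‖ ^ (f.natDegree - 1) :=
          mul_le_mul h3 h4 (by positivity) zero_le_one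
      _ = _ := one_mul _
  rw [norm_pow] at h2
  have h5 : ‖y‖ ^ (f.natDegree - 1) < ‖y‖ ^ f.natDegree :=
    pow_lt_pow_right₀ hlt (by omega)
  linarith

/-- the norm of an integer -/
theorem vemb_int {p : ℕ} [Fact p.Prime] (n : ℤ) : ‖(n : ℂ_[p])‖ < 1 ↔ (p : ℤ) ∣ n := by
  have : (n : ℂ_[p]) = algebraMap ℚ_[p] ℂ_[p] (n : ℚ_[p]) := by simp
  rw [this, norm_algebraMap']
  rw [← PadicInt.norm_int_lt_one_iff_dvd, PadicInt.norm_def]; simp

section

variable {F : Type} [Field F] [NumberField F] {p : ℕ} [Fact p.Prime] (τ : F →+* ℂ_[p])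

omit [NumberField F] in
theorem vemb_le (x : 𝓞 F) : ‖τ (x : F)‖ ≤ 1 := by
  obtain ⟨f, hf, hfy⟩ := x.2
  apply vemb_norm_le_one f hf
  have h := congrArg τ hfy
  rw [Polynomial.hom_eval₂, map_zero] at h
  have e : τ.comp (algebraMap ℤ F) = Int.castRingHom ℂ_[p] := Subsingleton.elim _ _
  rw [e] at h
  exact h

/-- the prime ideal induced by an embedding -/
def vemb_ideal : Ideal (𝓞 F) where
  carrier := {x | ‖τ (x : F)‖ < 1}
  add_mem' := by
    intro a b ha hb
    have : τ ((a + b : 𝓞 F) : F) = τ (a : F) + τ (b : F) := by push_cast; rw [map_add]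
    change ‖τ ((a + b : 𝓞 F) : F)‖ < 1
    rw [this]
    exact lt_of_le_of_lt (IsUltrametricDist.norm_add_le_max _ _) (max_lt ha hb)
  zero_mem' := by simp
  smul_mem' := by
    intro c x hx
    have : τ ((c • x : 𝓞 F) : F) = τ (c : F) * τ (x : F) := by
      rw [smul_eq_mul]; push_cast; rw [map_mul]
    change ‖τ ((c • x : 𝓞 F) : F)‖ < 1
    rw [this, norm_mul]
    have h1 := vemb_le τ c
    have h2 : ‖τ (x : F)‖ < 1 := hx
    nlinarith [norm_nonneg (τ (c : F)), norm_nonneg (τ (x : F))]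

theorem vemb_mem (x : 𝓞 F) : x ∈ vemb_ideal τ ↔ ‖τ (x : F)‖ < 1 := Iff.rfl

instance vemb_prime : (vemb_ideal τ).IsPrime := by
  refine Ideal.IsPrime.mk ?_ ?_
  · intro h
    have : (1 : 𝓞 F) ∈ vemb_ideal τ := by rw [h]; trivial
    rw [vemb_mem] at this
    simp at this
  · intro x y hxy
    by_contra hcon
    rw [not_or, vemb_mem, vemb_mem, not_lt, not_lt] at hcon
    rw [vemb_mem] at hxy
    have : τ ((x * y : 𝓞 F) : F) = τ (x : F) * τ (y : F) := by push_cast; rw [map_mul]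
    rw [this, norm_mul] at hxy
    nlinarith [hcon.1, hcon.2]

/-- transitivity: a prime over `p` is induced by a conjugate embedding -/
theorem vemb_conj [IsGalois ℚ F] (P : Ideal (𝓞 F)) [P.IsPrime] (hp : (p : 𝓞 F) ∈ P) :
    ∃ g : Gal(F/ℚ), ∀ x : 𝓞 F, x ∈ P ↔ ‖τ (g (x : F))‖ < 1 := by
  have hunder : P.under ℤ = (vemb_ideal τ).under ℤ := by
    ext n
    rw [Ideal.under_def, Ideal.mem_comap, Ideal.under_def, Ideal.mem_comap, vemb_mem]
    have e1 : algebraMap ℤ (𝓞 F) n = (n : 𝓞 F) := rfl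
    have e2 : τ (((n : ℤ) : 𝓞 F) : F) = (n : ℂ_[p]) := by simp
    rw [e1, e2, vemb_int]
    constructor
    · intro hn
      by_contra hndvd
      have hpp : Prime (p : ℤ) := Nat.prime_iff_prime_int.1 (Fact.out : p.Prime)
      have hcop : IsCoprime (p : ℤ) n := (Prime.coprime_iff_not_dvd hpp).2 hndvd
      obtain ⟨a, b, hab⟩ := hcop
      have h1 : (1 : 𝓞 F) ∈ P := by
        have h2 : ((a * p + b * n : ℤ) : 𝓞 F) ∈ P := by
          push_cast
          exact P.add_mem (P.mul_mem_left _ hp) (P.mul_mem_left _ hn)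
        rw [hab] at h2
        simpa using h2
      exact (Ideal.IsPrime.ne_top ‹_›) ((Ideal.eq_top_iff_one P).2 h1)
    · rintro ⟨m, rfl⟩
      push_cast
      exact P.mul_mem_right _ hp
  obtain ⟨g, hg⟩ := Algebra.IsInvariant.exists_smul_of_under_eq ℤ (𝓞 F) Gal(F/ℚ) P
    (vemb_ideal τ) hunder
  refine ⟨g, fun x => ?_⟩
  have h1 : (g • x) ∈ g • P ↔ x ∈ P := Ideal.smul_mem_pointwise_smul_iff
  rw [← h1, ← hg, vemb_mem]
  rfl

end

theorem vemb_closure (k : Type) [Field k] [NumberField k] :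
    ∃ (F : Type) (_ : Field F) (_ : NumberField F) (_ : Algebra k F), IsGalois ℚ F := by
  have i1 : Algebra.IsAlgebraic ℚ (AlgebraicClosure k) := Algebra.IsAlgebraic.trans ℚ k _
  have i2 : IsAlgClosure ℚ (AlgebraicClosure k) := ⟨inferInstance, inferInstance⟩
  have i3 : Normal ℚ (AlgebraicClosure k) := IsAlgClosure.normal ℚ _
  have i4 : Normal ℚ (IntermediateField.normalClosure ℚ k (AlgebraicClosure k)) :=
    normalClosure.normal _ _ _
  have i5 : FiniteDimensional ℚ (IntermediateField.normalClosure ℚ k (AlgebraicClosure k)) :=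
    normalClosure.is_finiteDimensional ℚ k (AlgebraicClosure k)
  refine ⟨IntermediateField.normalClosure ℚ k (AlgebraicClosure k), inferInstance, ?_,
    inferInstance, ?_⟩
  · exact { to_finiteDimensional := i5 }
  · exact { to_normal := i4 }

/-- the residue characteristic -/
theorem vemb_char {R : Type} [CommRing R] [CharZero R] (I : Ideal R) [I.IsPrime] (N : ℕ) (hN : 0 < N)
    (hNI : (N : R) ∈ I) : ∃ p : ℕ, p.Prime ∧ (p : R) ∈ I := by
  classical
  have hex : ∃ m : ℕ, 0 < m ∧ (m : R) ∈ I := ⟨N, hN, hNI⟩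
  obtain ⟨h0, h1⟩ := Nat.find_spec hex
  set m := Nat.find hex with hm
  have hm1 : m ≠ 1 := by
    intro h
    rw [h] at h1
    rw [Nat.cast_one] at h1
    exact (Ideal.IsPrime.ne_top ‹_›) ((Ideal.eq_top_iff_one I).2 h1)
  refine ⟨m.minFac, Nat.minFac_prime hm1, ?_⟩
  obtain ⟨c, hc⟩ := Nat.minFac_dvd m
  have h2 : ((m.minFac : R) * (c : R)) ∈ I := by
    rw [← Nat.cast_mul, ← hc]; exact h1
  rcases Ideal.IsPrime.mem_or_mem ‹_› h2 with h3 | h3
  · exact h3
  · exfalso
    have hc0 : 0 < c := by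
      rcases Nat.eq_zero_or_pos c with h | h
      · rw [h] at hc; omega
      · exact h
    have hlt : c < m := by
      have h4 := (Nat.minFac_prime hm1).two_le
      calc c < 2 * c := by omega
        _ ≤ m.minFac * c := Nat.mul_le_mul_right c h4
        _ = m := hc.symm
    exact Nat.find_min hex hlt ⟨hc0, h3⟩

theorem st_VEMB (hE : ST_EMB) : ST_VEMB := by
  intro k _ _ v
  obtain ⟨F, _, _, _, hGal⟩ := vemb_closure k
  -- the residue characteristic
  obtain ⟨p, hp, hpv⟩ := vemb_char v.asIdeal (Ideal.absNorm v.asIdeal)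
    (Nat.pos_of_ne_zero (by
      rw [Ne, Ideal.absNorm_eq_zero_iff]
      exact v.ne_bot)) (Ideal.absNorm_mem v.asIdeal)
  have : Fact p.Prime := ⟨hp⟩
  -- a prime of `F` over `v`
  have hvp : v.asIdeal.IsPrime := v.isPrime
  obtain ⟨P, -, hP, hPv⟩ := Ideal.exists_ideal_over_prime_of_isIntegral (S := 𝓞 F) v.asIdeal ⊥ (by
    rw [← RingHom.ker_eq_comap_bot, (RingHom.injective_iff_ker_eq_bot _).1
      (FaithfulSMul.algebraMap_injective (𝓞 k) (𝓞 F))]
    exact bot_le)
  have hFG : (⊤ : IntermediateField ℚ F).FG :=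
    IntermediateField.fg_of_noetherian _
  obtain ⟨τ, E, hEf, hEm⟩ := hE F hFG p
  have hpP : (p : 𝓞 F) ∈ P := by
    have h1 : ((p : ℕ) : 𝓞 k) ∈ Ideal.comap (algebraMap (𝓞 k) (𝓞 F)) P := by rw [hPv]; exact hpv
    rw [Ideal.mem_comap, map_natCast] at h1
    exact h1
  obtain ⟨g, hg⟩ := vemb_conj τ P hpP
  let σ : k →+* ℂ_[p] := (τ.comp (g : F →+* F)).comp (algebraMap k F)
  have hint : ∀ x : 𝓞 k, x ∈ v.asIdeal ↔ ‖σ (x : k)‖ < 1 := by
    intro x
    rw [← hPv, Ideal.mem_comap, hg]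
    rfl
  have hle : ∀ x : 𝓞 k, ‖σ (x : k)‖ ≤ 1 := fun x => vemb_le σ x
  -- elements of the valuation ring
  have hone : ∀ x : k, v.valuation k x ≤ 1 → (‖σ x‖ ≤ 1 ∧ (‖σ x‖ < 1 → v.valuation k x < 1)) := by
    intro x hx
    obtain ⟨n, d, hnd⟩ := v.exists_primeCompl_mul_eq_of_integer x hx
    have hd : ‖σ ((d : 𝓞 k) : k)‖ = 1 := by
      have h1 := hle (d : 𝓞 k)
      have h2 : ¬ ‖σ ((d : 𝓞 k) : k)‖ < 1 := by
        rw [← hint]; exact d.2
      linarith
    have hdv : v.valuation k ((d : 𝓞 k) : k) = 1 := by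
      have h1 : v.valuation k ((d : 𝓞 k) : k) ≤ 1 := v.valuation_le_one _
      have h2 : ¬ v.valuation k ((d : 𝓞 k) : k) < 1 := by
        intro h
        exact d.2 ((v.valuation_lt_one_iff_mem _).1 h)
      exact le_antisymm h1 (not_lt.1 h2)
    have hs : ‖σ x‖ = ‖σ (n : k)‖ := by
      have h1 := congrArg (fun y => ‖σ y‖) hnd
      simp only [map_mul, norm_mul] at h1
      rw [← h1]
      change ‖σ x‖ = ‖σ x‖ * ‖σ ((d : 𝓞 k) : k)‖
      rw [hd, mul_one]
    have hv : v.valuation k x = v.valuation k (n : k) := by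
      have h1 := congrArg (v.valuation k) hnd
      rw [map_mul] at h1
      rw [← h1]
      change v.valuation k x = v.valuation k x * v.valuation k ((d : 𝓞 k) : k)
      rw [hdv, mul_one]
    rw [hs, hv]
    refine ⟨hle n, fun h => ?_⟩
    exact (v.valuation_lt_one_iff_mem _).2 ((hint n).2 h)
  refine ⟨p, inferInstance, σ, E, ?_, hEf, fun x => hEm _⟩
  intro x
  constructor
  · intro hx
    have h1 := (hone x hx.le).1
    rcases h1.lt_or_eq with h2 | h2
    · exact h2
    · exfalso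
      -- multiply by a suitable element
      obtain ⟨n, d, hnd⟩ := v.exists_primeCompl_mul_eq_of_integer x hx.le
      have hd : ‖σ ((d : 𝓞 k) : k)‖ = 1 := by
        have h1 := hle (d : 𝓞 k)
        have h2 : ¬ ‖σ ((d : 𝓞 k) : k)‖ < 1 := by
          rw [← hint]; exact d.2
        linarith
      have hn : n ∈ v.asIdeal := by
        rw [← v.valuation_lt_one_iff_mem (K := k)]
        have h3 := congrArg (v.valuation k) hnd
        rw [map_mul] at h3
        rw [← h3]
        calc v.valuation k x * v.valuation k ((d : 𝓞 k) : k) ≤ v.valuation k x * 1 :=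
              mul_le_mul_right (v.valuation_le_one _) _
          _ = v.valuation k x := mul_one _
          _ < 1 := hx
      have h4 := (hint n).1 hn
      have h5 := congrArg (fun y => ‖σ y‖) hnd
      simp only [map_mul, norm_mul] at h5
      have h6 : ‖σ x‖ * ‖σ ((d : 𝓞 k) : k)‖ = ‖σ (n : k)‖ := h5
      rw [h2, hd, one_mul] at h6
      linarith
  · intro hx
    rcases le_or_gt (v.valuation k x) 1 with h1 | h1
    · exact (hone x h1).2 hx
    · exfalso
      have hx0 : x ≠ 0 := by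
        rintro rfl
        rw [map_zero] at h1
        exact absurd h1 (not_lt.2 zero_le_one)
      have h2 : v.valuation k x⁻¹ ≤ 1 := by
        rw [map_inv₀]
        exact inv_le_one_of_one_le₀ h1.le
      have h3 := (hone _ h2).1
      rw [map_inv₀, norm_inv] at h3
      have h4 : 0 < ‖σ x‖ := norm_pos_iff.2 ((map_ne_zero σ).2 hx0)
      have h5 : 1 < ‖σ x‖⁻¹ := (one_lt_inv₀ h4).2 hx
      linarith

end Pool.Agent.Helper13.ZL
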